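import Pool.Agent.Lib_helper70.TR8.Cw
import Pool.Agent.Lib_helper71.TR8.Asy
import Pool.Agent.Lib_helper11.TRC.D1

/-!
# TREE3 with colours: the asymptotics of a plane tree with coloured vertices
-/

set_option autoImplicit false

open Filter Topology MeasureTheory

namespace Pool.Agent.TR8

open Pool.Agent.TR5 (deg)
open Pool.Agent.TR5.Tre (lb)
open Pool.Agent.TR7 (EOK)

/-- the size of the saddles of a coloured graph -/
theorem eok_bd {v x0 : ℝ} (h : Bs v x0 ∨ TR6.Bx v x0) : |v| ≤ 11 / 20 ∧ |x0| ≤ 8 / 5 ∧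
    (Real.cosh x0 * Real.sin v) ^ 2 ≤ 49 / 100 := by
  rcases h with h | h
  · obtain ⟨p1, p2, p3, p4⟩ := h
    exact ⟨p1, by rw [abs_of_pos p2]; linarith, p4⟩
  · obtain ⟨p0, p1, p2, p3, p4⟩ := h
    have a1 : |x0| ≤ 161 / 200 := by rw [abs_le]; constructor <;> linarith
    exact ⟨by linarith, by linarith, t2_A a1 (by linarith)⟩

/-- **(T1) for coloured graphs**, in the form which the asymptotics need -/
theorem t1A_col (hT : T1C) (hX : XIS) (hJ : JS) (hM : MS) (ι τ : Type) [Fintype ι] [Fintype τ]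
    [DecidableEq ι] [DecidableEq τ] (s t : τ → ι) (k : ι → Bool) (a : ι → ℤ)
    (h1 : ∀ e, s e ≠ t e) (h2 : ∀ r, 1 ≤ deg s t r)
    (h3 : ∀ e, Jn (k (s e)) (a (s e)) (deg s t (s e)) (k (t e)) (a (t e)) (deg s t (t e))) :
    ∃ (v x0 : ι → ℝ) (ds dt zs zt : τ → ℝ → ℝ), SadA s t a v x0 ds dt zs zt ∧
      ∀ e, EOK (lb (v (s e)) (x0 (s e))) (lb (v (t e)) (x0 (t e))) := by
  obtain ⟨v, x0, S⟩ := hT ι τ s t k a h1 h2 h3
  obtain ⟨ds, dt, zs, zt, A⟩ := Ac.toA hX hJ hM h2 h3 S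
  have B : ∀ r, Bs (v r) (x0 r) ∨ TR6.Bx (v r) (x0 r) := by
    intro r
    cases hr : k r
    · exact Or.inl (S.bA r hr).bs
    · exact Or.inr (S.bF r hr)
  refine ⟨v, x0, ds, dt, zs, zt, A, fun e => ?_⟩
  obtain ⟨p1, p2, p3⟩ := eok_bd (B (s e))
  obtain ⟨q1, q2, q3⟩ := eok_bd (B (t e))
  exact eok_lb' p1 q1 (A.v0 _) (A.v0 _) p2 q2 p3 q3

end Pool.Agent.TR8

namespace Pool.Agent.TRC

open Pool.Agent.TB hiding up
open Pool.Agent.TR5 (deg)
open Pool.Agent.TR5.Tre

theorem joins_jn {k : Bool} {p : ℤ} {d : ℕ} {c : Bool} {a : ℤ} {e : ℕ}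
    (h : KV.Joins k p d c a e) : TR8.Jn k p d c a e := by
  cases k <;> cases c <;> exact h

/-- the colours of the vertices of a forest -/
theorem fiv_col : (F : Forest) → (k : Bool) → (p : ℤ) → (d : ℕ) → Fiv k p d F →
    ∃ c : Ed F → Bool, ∀ e : Ed F, KV.Joins ((Pool.Agent.TR5.Tre.up F e).elim k c)
      ((Pool.Agent.TR5.Tre.up F e).elim p (wt F))
      ((Pool.Agent.TR5.Tre.up F e).elim d fun e' => kids F e' + 1) (c e) (wt F e) (kids F e + 1)
  | .nil, _, _, _, _ => ⟨fun _ => true, fun e => Empty.elim e⟩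
  | .cons a F G, k, p, d, h => by
    obtain ⟨b, h1, h2, h3⟩ := h
    obtain ⟨c1, k1⟩ := fiv_col F b a (width F + 1) h2
    obtain ⟨c2, k2⟩ := fiv_col G k p d h3
    refine ⟨mkE b c1 c2, fun e => ?_⟩
    refine Ed.cases' (p := fun e => KV.Joins
      ((Pool.Agent.TR5.Tre.up (.cons a F G) e).elim k (mkE b c1 c2))
      ((Pool.Agent.TR5.Tre.up (.cons a F G) e).elim p (wt (.cons a F G)))
      ((Pool.Agent.TR5.Tre.up (.cons a F G) e).elim d fun e' => kids (.cons a F G) e' + 1)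
      (mkE b c1 c2 e) (wt (.cons a F G) e) (kids (.cons a F G) e + 1)) ?_ ?_ ?_ e
    · show KV.Joins k p d b a (kids.wid F + 1)
      rw [wid_eq]
      exact h1
    · intro e
      have q := k1 e
      rw [up_sub]
      rcases hu : Pool.Agent.TR5.Tre.up F e with _ | e'
      · rw [hu] at q
        show KV.Joins b a (kids.wid F + 1) (c1 e) (wt F e) (kids F e + 1)
        rw [wid_eq]
        exact q
      · rw [hu] at q
        exact q
    · intro e
      have q := k2 e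
      rw [up_oth]
      rcases hu : Pool.Agent.TR5.Tre.up G e with _ | e'
      · rw [hu] at q
        exact q
      · rw [hu] at q
        exact q

/-- **(ASY)** from the saddles, the tables of the edges and the limit theorem -/
theorem asyT (hT : TR8.T1C) (hX : TR8.XIS) (hJ : TR8.JS) (hM : TR8.MS) (hG : TR8.GrA) :
    AsyT := by
  intro k a F hF hFiv
  obtain ⟨-, g2, g3⟩ := TR8.Tre.graph_hyp (F := F) hF
  obtain ⟨c, hc⟩ := fiv_col F k a (width F) hFiv
  obtain ⟨v, x0, ds, dt, zs, zt, S, hE⟩ := TR8.t1A_col hT hX hJ hM (Option (Ed F)) (Ed F)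
    (Pool.Agent.TR5.Tre.up F) some (fun r => r.elim k c) (wv a F) g2 g3 (fun e => by
      have h := joins_jn (hc e)
      rw [deg_some]
      rcases hu : Pool.Agent.TR5.Tre.up F e with _ | e'
      · rw [hu] at h
        rw [deg_none]
        exact h
      · rw [hu] at h
        rw [deg_some]
        exact h)
  exact TR8.asy_tree hG hF S hE

end Pool.Agent.TRC
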